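import Pool.Agent.Q67.AXI.Defs2

/-!
# Project AXW of helper67, job AXW-6 (the stretching term of `OO` with weight), by helper261
-/

set_option autoImplicit false

open MeasureTheory Set Metric Filter Topology
open scoped ContDiff
open H459R3.NS Pool.Agent.W268.NS Pool.Agent.Q67.VD

namespace Pool.Agent.Q261.AXW

open Pool.Agent.Q85.CC Pool.Agent.Q85.CL Pool.Agent.TH305.AX Pool.Agent.Q67.AXI

/-- a power of the absolute value on an interval -/
noncomputable def pa (s A : ℝ) (t : ℝ) : ℝ := (Icc (-A) A).indicator (fun t => |t| ^ s) t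

theorem pa_meas (s A : ℝ) : Measurable (pa s A) :=
  (Measurable.pow_const measurable_id.abs s).indicator measurableSet_Icc

theorem pa_nonneg (s A t : ℝ) : 0 ≤ pa s A t :=
  indicator_nonneg (fun _ _ => Real.rpow_nonneg (abs_nonneg _) _) _

theorem pa_int {s A : ℝ} (hs : -1 < s) (hA : 0 ≤ A) : Integrable (pa s A) := by
  have h1 : IntervalIntegrable (fun t : ℝ => t ^ s) volume 0 A :=
    intervalIntegral.intervalIntegrable_rpow' hs
  rw [intervalIntegrable_iff_integrableOn_Icc_of_le hA] at h1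
  have h2 : Integrable ((Icc 0 A).indicator fun t : ℝ => t ^ s) :=
    (integrable_indicator_iff measurableSet_Icc).mpr h1
  have h3 := h2.comp_neg
  refine (h2.add h3).mono' (pa_meas s A).aestronglyMeasurable (Eventually.of_forall fun t => ?_)
  rw [Real.norm_of_nonneg (pa_nonneg s A t)]
  have hn : ∀ t : ℝ, 0 ≤ (Icc 0 A).indicator (fun t : ℝ => t ^ s) t := fun t =>
    indicator_nonneg (fun u hu => Real.rpow_nonneg hu.1 _) _
  show pa s A t ≤ (Icc 0 A).indicator (fun t : ℝ => t ^ s) t +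
    (Icc 0 A).indicator (fun t : ℝ => t ^ s) (-t)
  unfold pa
  by_cases ht : t ∈ Icc (-A) A
  · rw [indicator_of_mem ht]
    rcases le_total 0 t with h | h
    · have h4 : t ∈ Icc 0 A := ⟨h, ht.2⟩
      have h5 := hn (-t)
      rw [indicator_of_mem h4, abs_of_nonneg h]
      linarith
    · have h4 : -t ∈ Icc 0 A := ⟨by linarith, by linarith [ht.1]⟩
      have h5 := hn t
      rw [indicator_of_mem h4, abs_of_nonpos h]
      linarith
  · rw [indicator_of_notMem ht]
    linarith [hn t, hn (-t)]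

/-- the majorant -/
noncomputable def mj (s A : ℝ) (x : V) : ℝ := pa s A (x 0) * pa s A (x 1) * pa 0 A (x 2)

theorem mj_int {s A : ℝ} (hs : -1 < s) (hA : 0 ≤ A) : Integrable (mj s A) := by
  have h1 : ∀ i : Fin 3, Integrable ((![pa s A, pa s A, pa 0 A] : Fin 3 → ℝ → ℝ) i) := by
    intro i
    fin_cases i
    · exact pa_int hs hA
    · exact pa_int hs hA
    · exact pa_int (by norm_num) hA
  have h2 := Integrable.fintype_prod (𝕜 := ℝ) (ι := Fin 3) (μ := fun _ => volume) h1
  have h3 : mj s A = fun x : V => ∏ i : Fin 3,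
      (![pa s A, pa s A, pa 0 A] : Fin 3 → ℝ → ℝ) i (x i) := by
    funext x
    rw [Fin.prod_univ_three]
    rfl
  rw [h3]
  exact h2

theorem sg_nonneg (x : V) : 0 ≤ sg x := by
  unfold sg
  positivity

theorem sg_cont : Continuous sg := by
  unfold sg
  fun_prop

/-- the weight away from the coordinate planes -/
theorem wt_le {γ A : ℝ} (hγ : γ < 1) {x : V} (h0 : x 0 ≠ 0) (h1 : x 1 ≠ 0)
    (hx : ∀ i, |x i| ≤ A) : 0 < sg x ∧ wt γ x / sg x ≤ mj (γ - 1) A x := by
  have hs : 0 < sg x := by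
    unfold sg
    positivity
  refine ⟨hs, ?_⟩
  have e1 : wt γ x / sg x = sg x ^ (γ - 1) := by
    unfold wt
    rw [Real.rpow_sub_one hs.ne']
  have hm : ∀ i, x i ∈ Icc (-A) A := fun i => abs_le.mp (hx i)
  have e2 : mj (γ - 1) A x = (|x 0| * |x 1|) ^ (γ - 1) := by
    unfold mj pa
    rw [indicator_of_mem (hm 0), indicator_of_mem (hm 1), indicator_of_mem (hm 2), Real.rpow_zero,
      mul_one, Real.mul_rpow (abs_nonneg _) (abs_nonneg _)]
  rw [e1, e2]
  refine Real.rpow_le_rpow_of_nonpos (mul_pos (abs_pos.mpr h0) (abs_pos.mpr h1)) ?_ (by linarith)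
  unfold sg
  nlinarith [sq_nonneg (|x 0| - |x 1|), sq_abs (x 0), sq_abs (x 1), abs_nonneg (x 0),
    abs_nonneg (x 1), mul_nonneg (abs_nonneg (x 0)) (abs_nonneg (x 1))]

/-- integrability of the density of `PW` -/
theorem PW_int {γ : ℝ} (h0 : 0 < γ) (h1 : γ < 1) {f : V → ℝ} (hf : Continuous f)
    (hc : HasCompactSupport f) : Integrable (fun x => wt γ x * (f x ^ 2 / sg x)) := by
  obtain ⟨A, hA⟩ := hc.isCompact.isBounded.subset_closedBall (0 : V)
  obtain ⟨M, hM⟩ := hf.bounded_above_of_compact_support hc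
  have hA0 : (0 : ℝ) ≤ |A| := abs_nonneg A
  have hmeas : AEStronglyMeasurable (fun x => wt γ x * (f x ^ 2 / sg x)) volume := by
    have h2 : Measurable (wt γ) := Measurable.pow_const sg_cont.measurable γ
    exact (h2.mul ((hf.measurable.pow_const 2).div sg_cont.measurable)).aestronglyMeasurable
  refine ((mj_int (s := γ - 1) (A := |A|) (by linarith) hA0).const_mul (M ^ 2)).mono' hmeas ?_
  have a0 : ∀ᵐ x : V, x 0 ≠ 0 := Measure.ae_eval_ne (fun _ : Fin 3 => (volume : Measure ℝ)) 0 0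
  have a1 : ∀ᵐ x : V, x 1 ≠ 0 := Measure.ae_eval_ne (fun _ : Fin 3 => (volume : Measure ℝ)) 1 0
  filter_upwards [a0, a1] with x hx0 hx1
  by_cases hx : f x = 0
  · rw [hx]
    simp only [ne_eq, OfNat.ofNat_ne_zero, not_false_eq_true, zero_pow, zero_div, mul_zero, norm_zero]
    exact mul_nonneg (sq_nonneg _) (mul_nonneg (mul_nonneg (pa_nonneg _ _ _) (pa_nonneg _ _ _))
      (pa_nonneg _ _ _))
  · have h3 : x ∈ closedBall (0 : V) A := hA (subset_tsupport f hx)
    have h4 : ‖x‖ ≤ A := by simpa using h3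
    have h5 : ∀ i, |x i| ≤ |A| := fun i => (norm_le_pi_norm x i).trans (h4.trans (le_abs_self A))
    obtain ⟨h6, h7⟩ := wt_le (γ := γ) (A := |A|) h1 hx0 hx1 h5
    have h8 : 0 ≤ wt γ x / sg x := div_nonneg (Real.rpow_nonneg h6.le _) h6.le
    have h9 : wt γ x * (f x ^ 2 / sg x) = f x ^ 2 * (wt γ x / sg x) := by ring
    rw [h9, Real.norm_of_nonneg (mul_nonneg (sq_nonneg _) h8)]
    have h10 : f x ^ 2 ≤ M ^ 2 := by
      have := hM x
      rw [Real.norm_eq_abs] at this
      exact sq_le_sq' (by linarith [neg_abs_le (f x)]) ((le_abs_self _).trans this)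
    exact mul_le_mul h10 h7 h8 (sq_nonneg _)

theorem t2w : StmAlg → StmT2W := by
  intro hAlg γ h0 h1 K c r h r1 h1' δ v φ hδ hv hax hcut hcirc
  obtain ⟨⟨-, -, hJ, hO⟩, -, -, hall⟩ := hAlg v hv hax
  have hJc : Continuous (fun x => φ x * JJ v x) := hcut.sm.continuous.mul hJ.continuous
  have hOc : Continuous (fun x => φ x * OO v x) := hcut.sm.continuous.mul hO.continuous
  have iJ := PW_int (γ := γ) h0 (by linarith) hJc hcut.cs.mul_right
  have iO := PW_int (γ := γ) h0 (by linarith) hOc hcut.cs.mul_right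
  have key : |∫ x, wt γ x * φ x ^ 2 * OO v x * (WW v x * JJ v x)| ≤
      ∫ x, (δ / 2) * (wt γ x * ((φ x * JJ v x) ^ 2 / sg x) +
        wt γ x * ((φ x * OO v x) ^ 2 / sg x)) := by
    rw [← Real.norm_eq_abs]
    refine norm_integral_le_of_norm_le ((iJ.add iO).const_mul (δ / 2)) (Eventually.of_forall
      fun x => ?_)
    rw [Real.norm_eq_abs]
    by_cases hx : φ x = 0
    · rw [hx]
      simp
    by_cases hs : sg x = 0
    · have : wt γ x = 0 := by
        unfold wt
        rw [hs, Real.zero_rpow h0.ne']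
      rw [this]
      simp
    have hs' : 0 < sg x := lt_of_le_of_ne (sg_nonneg x) (Ne.symm hs)
    have hxC : x ∈ Co c r h := hcut.supp (subset_tsupport φ hx)
    have h2 := hcirc x hxC
    rw [(hall x).2.2.2.2.2.2.2.2.1, abs_mul, abs_of_pos hs'] at h2
    have hw : 0 ≤ wt γ x := Real.rpow_nonneg hs'.le _
    have h3 : |WW v x| ≤ δ / sg x := by
      rw [le_div_iff₀ hs']
      linarith
    have e1 : |wt γ x * φ x ^ 2 * OO v x * (WW v x * JJ v x)| =
        wt γ x * (|φ x * JJ v x| * |φ x * OO v x|) * |WW v x| := by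
      rw [abs_mul, abs_mul, abs_mul, abs_mul, abs_of_nonneg hw, abs_pow, abs_mul, abs_mul]
      ring
    rw [e1]
    have h4 : |φ x * JJ v x| * |φ x * OO v x| ≤
        ((φ x * JJ v x) ^ 2 + (φ x * OO v x) ^ 2) / 2 := by
      nlinarith [sq_nonneg (|φ x * JJ v x| - |φ x * OO v x|), sq_abs (φ x * JJ v x),
        sq_abs (φ x * OO v x)]
    calc wt γ x * (|φ x * JJ v x| * |φ x * OO v x|) * |WW v x|
        ≤ wt γ x * (((φ x * JJ v x) ^ 2 + (φ x * OO v x) ^ 2) / 2) * (δ / sg x) := by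
          refine mul_le_mul (mul_le_mul_of_nonneg_left h4 hw) h3 (abs_nonneg _) ?_
          exact mul_nonneg hw (by positivity)
      _ = (δ / 2) * (wt γ x * ((φ x * JJ v x) ^ 2 / sg x) +
        wt γ x * ((φ x * OO v x) ^ 2 / sg x)) := by
          field_simp
  rw [integral_const_mul, integral_add iJ iO] at key
  unfold PW
  linarith

end Pool.Agent.Q261.AXW
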